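import Pool.Agent.helper5.SplitExample

set_option autoImplicit false

/-!
Negative answer to Q1 of MP_4681e4_al, for every isomorphism type `K` of the first edge group:

For every slender group `K` there are a finitely generated group `G`, a subgroup `A` and subgroups
`B n`, `C n` with `G = A *_{C n} B n` (nontrivially), `C n` slender, `C n < C (n + 1)` for all `n`
and `C 0 ≃* K`, such that no splitting `G = A *_{C'} B'` has `C' < C n` for every `n`. Moreover `G`
does not split at all (as an amalgam with any factors, or as an HNN extension with any base)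
over a proper subgroup of `C 0`.

Here `G = K × (P * ℤ)`, where `P` is the group of permutations of `ℤ` generated by
`m ↦ m + 1` and `(0 1)`, `A = K × P`, `C n = K × D n` and `B n = K × (D n * ℤ)`, where `D n` is the
finite subgroup of permutations in `P` supported on `{0, ..., n}`.
-/

namespace Pool.Agent.Results.MP_4681e4_al.AmalgamNegative

open Pool.Agent.helper5.Split

theorem result (K : Type) [Group K] (hK : Slender K) :
    ∃ (G : Type) (_ : Group G) (A : Subgroup G) (B C : ℕ → Subgroup G),
      Group.FG G ∧
      (∀ n, IsAmalgam A (B n) (C n)) ∧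
      (∀ n, Slender (C n)) ∧
      (∀ n, C n < C (n + 1)) ∧
      Nonempty (C 0 ≃* K) ∧
      (¬ ∃ B' C' : Subgroup G, IsAmalgam A B' C' ∧ ∀ n, C' < C n) ∧
      (∀ C' : Subgroup G, C' < C 0 → ¬ SplitsOver C') := by
  have hK' : Group.FG K := ⟨hK ⊤⟩
  refine ⟨K × Monoid.Coprod PermGp (Multiplicative ℤ), inferInstance,
    sA K PermGp (Multiplicative ℤ), fun n => sB K (Multiplicative ℤ) (Dn n),
    fun n => sC K (Multiplicative ℤ) (Dn n), fg_prod_coprod hK' inferInstance inferInstance,
    fun n => isAmalgam_build (Dn n) (Dn_ne_top n), fun n => slender_sC hK (Dn n),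
    fun n => sC_lt (Dn_lt n), nonempty_equiv K, ?_, fun C' hC' => not_splitsOver_of_lt hC'⟩
  · rintro ⟨B', C', h, hC'⟩
    exact not_splitsOver_of_lt (hC' 0) (Or.inl ⟨_, _, h⟩)

end Pool.Agent.Results.MP_4681e4_al.AmalgamNegative
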