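import Pool.Agent.helper5.SplitAff

set_option autoImplicit false

/-!
Negative answer to Q1 of MP_4681e4_al when the chain of edge groups is descending: there are a
finitely generated group `G`, a subgroup `A` and subgroups `B n`, `C n` with `G = A *_{C n} B n`
(nontrivially), `C n` infinite cyclic and `C (n + 1) < C n` for all `n`, such that no splitting
`G = A *_{C'} B'` has `C' ≤ C n` for every `n`.

Here `A = ⟨a, c | a c a⁻¹ = c ^ 2⟩`, `G = A *_{⟨c⟩} (⟨c⟩ × ℤ)` and `C n = ⟨c ^ (2 ^ n)⟩`.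
-/

namespace Pool.Agent.Results.MP_4681e4_al.DescendingAmalgam

open Pool.Agent.helper5.Split

theorem result :
    ∃ (G : Type) (_ : Group G) (A : Subgroup G) (B C : ℕ → Subgroup G),
      Group.FG G ∧
      (∀ n, IsAmalgam A (B n) (C n)) ∧
      (∀ n, Slender (C n)) ∧
      (∀ n, IsCyclic (C n) ∧ Infinite (C n)) ∧
      (∀ n, C (n + 1) < C n) ∧
      (¬ ∃ B' C' : Subgroup G, IsAmalgam A B' C' ∧ ∀ n, C' ≤ C n) := by
  let o : AffGp →* CentExt (Tn 0) := HNNExtension.of
  have hinj : Function.Injective o := HNNExtension.of_injective (MulEquiv.refl (Tn 0))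
  have hcyc : ∀ n, IsCyclic ((Tn n).map o) := by
    intro n
    have : IsCyclic (Tn n) := by
      rw [Tn]
      infer_instance
    exact isCyclic_of_surjective (o.subgroupMap (Tn n)) (o.subgroupMap_surjective (Tn n))
  refine ⟨CentExt (Tn 0), inferInstance, o.range,
    fun n => ((Tn 0).map o ⊔ Subgroup.zpowers HNNExtension.t).map
      (MulAut.conj (o (aa ^ n))).toMonoidHom, fun n => (Tn n).map o,
    centExt_fg inferInstance, ?_, ?_, ?_, ?_, ?_⟩
  · intro n
    have h := (centExt_isAmalgam (C₀ := Tn 0) (Tn 0) le_rfl (Tn_ne_top 0)).conj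
      (g := o (aa ^ n)) ⟨_, rfl⟩
    have h2 : ((Tn 0).map o).map (MulAut.conj (o (aa ^ n))).toMonoidHom = (Tn n).map o := by
      rw [← Tn_conj n, Subgroup.map_map, Subgroup.map_map]
      congr 1
      apply MonoidHom.ext
      intro x
      change o (aa ^ n) * o x * (o (aa ^ n))⁻¹ = o (aa ^ n * x * (aa ^ n)⁻¹)
      rw [map_mul, map_mul, map_inv]
    rw [h2] at h
    exact h
  · intro n
    have := hcyc n
    exact slender_of_isCyclic
  · intro n
    refine ⟨hcyc n, ?_⟩
    apply Infinite.of_injective (fun k : ℤ => (⟨o (cc ^ (2 ^ n * k)), ⟨_, mem_Tn.2 ⟨k, rfl⟩, rfl⟩⟩ :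
      (Tn n).map o))
    intro k l hkl
    have h1 : o (cc ^ (2 ^ n * k)) = o (cc ^ (2 ^ n * l)) := congrArg Subtype.val hkl
    have h2 := cc_zpow_injective (hinj h1)
    exact mul_left_cancel₀ (by positivity) h2
  · intro n
    have h := Tn_lt n
    rw [SetLike.lt_iff_le_and_exists] at h ⊢
    refine ⟨Subgroup.map_mono h.1, ?_⟩
    obtain ⟨x, hx, hx'⟩ := h.2
    refine ⟨o x, ⟨x, hx, rfl⟩, ?_⟩
    rintro ⟨y, hy, hyx⟩
    rw [hinj hyx] at hy
    exact hx' hy
  · rintro ⟨B', C', h, hC'⟩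
    obtain ⟨a, ha⟩ := centExt_conj_le h
    have h1 : o (a⁻¹ * cc * a) ∈ C' := ha cc (by rw [Tn_zero]; exact Subgroup.mem_zpowers _)
    have h2 : ∀ n, a⁻¹ * cc * a ∈ Tn n := by
      intro n
      obtain ⟨y, hy, hyx⟩ := hC' n h1
      rwa [← hinj hyx]
    have h3 := eq_one_of_mem_Tn h2
    have h4 : cc = 1 := by
      have : cc = a * (a⁻¹ * cc * a) * a⁻¹ := by group
      rw [this, h3]
      group
    have h5 : cc ^ (1 : ℤ) = cc ^ (0 : ℤ) := by simpa using h4
    have := cc_zpow_injective h5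
    norm_num at this

end Pool.Agent.Results.MP_4681e4_al.DescendingAmalgam
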