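import Pool.Agent.helper5.SplitAffHNN

set_option autoImplicit false

/-!
Negative answer to Q2 of MP_4681e4_al when the chain of edge groups is descending: the
Baumslag-Solitar group `G = BS(1,2)` is, for every `n`, an HNN extension over the infinite cyclic
group `C n = ⟨c ^ (2 ^ n)⟩`, but it is not an HNN extension over any subgroup contained in every
`C n`.
-/

namespace Pool.Agent.Results.MP_4681e4_al.DescendingHNN

open Pool.Agent.helper5.Split

theorem result :
    ∃ (G : Type) (_ : Group G) (C : ℕ → Subgroup G),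
      Group.FG G ∧
      (∀ n, ∃ H : Subgroup G, IsHNN H (C n)) ∧
      (∀ n, Slender (C n)) ∧
      (∀ n, IsCyclic (C n) ∧ Infinite (C n)) ∧
      (∀ n, C (n + 1) < C n) ∧
      (¬ ∃ H' C' : Subgroup G, IsHNN H' C' ∧ ∀ n, C' ≤ C n) := by
  have hcyc : ∀ n, IsCyclic (Tn n) := by
    intro n
    rw [Tn]
    infer_instance
  refine ⟨AffGp, inferInstance, Tn, inferInstance, fun n => ⟨Tn n, affGp_isHNN n⟩, ?_, ?_, Tn_lt,
    ?_⟩
  · intro n
    have := hcyc n
    exact slender_of_isCyclic
  · intro n
    refine ⟨hcyc n, ?_⟩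
    apply Infinite.of_injective (fun k : ℤ => (⟨cc ^ (2 ^ n * k), mem_Tn.2 ⟨k, rfl⟩⟩ : Tn n))
    intro k l hkl
    have h2 := cc_zpow_injective (congrArg Subtype.val hkl)
    exact mul_left_cancel₀ (by positivity) h2
  · rintro ⟨H', C', h, hC'⟩
    have h1 : C' = ⊥ := by
      rw [eq_bot_iff]
      intro x hx
      exact eq_one_of_mem_Tn (fun n => hC' n hx)
    subst h1
    exact affGp_not_isHNN_bot H' h

end Pool.Agent.Results.MP_4681e4_al.DescendingHNN
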