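import Pool.Agent.helper5.SplitExample

set_option autoImplicit false

/-!
Negative answer to Q2 of MP_4681e4_al, for every isomorphism type `K` of the first edge group:

For every slender group `K` there are a finitely generated group `G` and subgroups `C n` with
`G` an HNN extension over `C n`, `C n` slender, `C n < C (n + 1)` for all `n` and `C 0 ≃* K`, such
that `G` is not an HNN extension over any `C'` with `C' < C n` for every `n`. Moreover `G` does not
split at all (as an HNN extension with any base, or as an amalgam with any factors) over a proper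
subgroup of `C 0`.

Here `G = K × (P * ⟨t⟩)`, where `P` is the group of permutations of `ℤ` generated by
`m ↦ m + 1` and `(0 1)` and `t` has infinite order, `C n = K × D n` and the base of the
`n`-th splitting is `K × ⟨P, t D n t⁻¹⟩`, where `D n` is the finite subgroup of permutations in `P`
supported on `{0, ..., n}`.
-/

namespace Pool.Agent.Results.MP_4681e4_al.HNNNegative

open Pool.Agent.helper5.Split

theorem result (K : Type) [Group K] (hK : Slender K) :
    ∃ (G : Type) (_ : Group G) (C : ℕ → Subgroup G),
      Group.FG G ∧
      (∀ n, ∃ H : Subgroup G, IsHNN H (C n)) ∧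
      (∀ n, Slender (C n)) ∧
      (∀ n, C n < C (n + 1)) ∧
      Nonempty (C 0 ≃* K) ∧
      (¬ ∃ H' C' : Subgroup G, IsHNN H' C' ∧ ∀ n, C' < C n) ∧
      (∀ C' : Subgroup G, C' < C 0 → ¬ SplitsOver C') := by
  have hK' : Group.FG K := ⟨hK ⊤⟩
  refine ⟨K × Monoid.Coprod PermGp (Multiplicative ℤ), inferInstance,
    fun n => sC K (Multiplicative ℤ) (Dn n), fg_prod_coprod hK' inferInstance inferInstance,
    fun n => ⟨sH K (Dn n), isHNN_build (Dn n)⟩, fun n => slender_sC hK (Dn n),
    fun n => sC_lt (Dn_lt n), nonempty_equiv K, ?_, fun C' hC' => not_splitsOver_of_lt hC'⟩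
  · rintro ⟨H', C', h, hC'⟩
    exact not_splitsOver_of_lt (hC' 0) (Or.inr ⟨_, h⟩)

end Pool.Agent.Results.MP_4681e4_al.HNNNegative
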